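import Pool.Agent.X122.GDe
import Pool.Agent.H730R2.LU.Fin

/-!
# The generalized `L_1` discrepancy of every smoothness, modulo functions of fewer variables

For `r ≥ 1` the `r`-discrepancy function of weighted nodes `ξ^μ` is
`∏ t_s^r / r! - Σ_μ λ_μ ∏_s (t_s - ξ^μ_s)_+^(r-1) / (r-1)!` (for `r = 1` the local star discrepancy with
weights).  We prove that it is at least `c (ln m)^((d-1)/2) / m^r` in absolute value on a set of measure
at least `c`, for at most `K m` nodes and arbitrary real weights, even after the subtraction of an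
arbitrary sum of functions each of which is, in one of the variables, a polynomial of degree less than
`r` (for `r = 1`: functions of fewer variables).
-/

set_option autoImplicit false

namespace Pool.Agent.Results.MP_173de9_an.AllSmoothness

open MeasureTheory

/-- The kernel `∏_s (t_s - ξ_s)_+^(r-1) / (r-1)!`, where `(·)_+^0` is the indicator of `[0,∞)`. -/
noncomputable def kernel {d : ℕ} (r : ℕ) (ξ t : Fin d → ℝ) : ℝ :=
  ∏ s, if ξ s ≤ t s then (t s - ξ s) ^ (r - 1) / ((r - 1).factorial : ℝ) else 0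

/-- The `r`-discrepancy function of the nodes `ξ` with the weights `λ`. -/
noncomputable def genDisc {m d : ℕ} (r : ℕ) (lam : Fin m → ℝ) (ξ : Fin m → Fin d → ℝ)
    (t : Fin d → ℝ) : ℝ :=
  ∏ s, (t s ^ r / (r.factorial : ℝ)) - ∑ μ, lam μ * kernel r (ξ μ) t

/-- The coefficient function `a s i` does not depend on the variable `t_s`. -/
def Indep {d r : ℕ} (a : Fin d → Fin r → (Fin d → ℝ) → ℝ) : Prop :=
  ∀ s i t z, a s i (Function.update t s z) = a s i t

/-- The function `Σ_s Σ_{i<r} a_{s,i}(t) t_s^i`. -/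
noncomputable def low {d r : ℕ} (a : Fin d → Fin r → (Fin d → ℝ) → ℝ) (t : Fin d → ℝ) : ℝ :=
  ∑ s, ∑ i : Fin r, a s i t * t s ^ (i : ℕ)

/-- The optimal `r`-discrepancy in `L_q([0,1]^d)` of `m` nodes in `[0,1]^d` with real weights. -/
noncomputable def optGen (q : ENNReal) (r m d : ℕ) : ENNReal :=
  ⨅ (lam : Fin m → ℝ) (ξ : Fin m → Fin d → ℝ) (_ : ∀ μ, ξ μ ∈ Set.Icc (0 : Fin d → ℝ) 1),
    eLpNorm (genDisc r lam ξ) q (volume.restrict (Set.Icc (0 : Fin d → ℝ) 1))

/-- The reduced `r`-discrepancy in `L_q([0,1]^d)`: the infimum over the nodes, the weights and all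
measurable `a_{s,i}` not depending on `t_s` of the norm of the difference of the `r`-discrepancy
function and `Σ_s Σ_{i<r} a_{s,i}(t) t_s^i`. -/
noncomputable def redGen (q : ENNReal) (r m d : ℕ) : ENNReal :=
  ⨅ (lam : Fin m → ℝ) (ξ : Fin m → Fin d → ℝ) (_ : ∀ μ, ξ μ ∈ Set.Icc (0 : Fin d → ℝ) 1)
    (a : Fin d → Fin r → (Fin d → ℝ) → ℝ) (_ : ∀ s i, Measurable (a s i)) (_ : Indep a),
    eLpNorm (fun t => genDisc r lam ξ t - low a t) q
      (volume.restrict (Set.Icc (0 : Fin d → ℝ) 1))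

/-- The optimal star discrepancy `D(m,d)_q` with equal weights. -/
noncomputable def optDisc (q : ENNReal) (m d : ℕ) : ENNReal :=
  ⨅ (ξ : Fin m → Fin d → ℝ) (_ : ∀ μ, ξ μ ∈ Set.Icc (0 : Fin d → ℝ) 1),
    eLpNorm (fun x => ∏ j, x j -
      (1 / (m:ℝ)) * ∑ μ : Fin m, (Set.Icc (0 : Fin d → ℝ) x).indicator (fun _ => (1:ℝ)) (ξ μ))
      q (volume.restrict (Set.Icc (0 : Fin d → ℝ) 1))

theorem err_eq {m d r : ℕ} (lam : Fin m → ℝ) (ξ : Fin m → Fin d → ℝ)
    (a : Fin d → Fin r → (Fin d → ℝ) → ℝ) (t : Fin d → ℝ) :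
    X122.GD.Err d r Finset.univ lam ξ a t = genDisc r lam ξ t - low a t := rfl

/-- The bound in measure. -/
theorem in_measure (d r : ℕ) (hd : 1 ≤ d) (hr : 1 ≤ r) (K : ℝ) : ∃ c : ℝ, 0 < c ∧
    ∀ m : ℕ, 2 ≤ m → ∀ N : ℕ, (N : ℝ) ≤ K * m → ∀ (lam : Fin N → ℝ) (ξ : Fin N → Fin d → ℝ)
      (a : Fin d → Fin r → (Fin d → ℝ) → ℝ), Indep a →
      ENNReal.ofReal c ≤ volume {t : Fin d → ℝ | t ∈ Set.Icc (0 : Fin d → ℝ) 1 ∧
        c * (Real.log m) ^ (((d : ℝ) - 1) / 2) / m ^ r ≤ |genDisc r lam ξ t - low a t|} := by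
  obtain ⟨ε, hε, c, hc, H⟩ := X122.GD.measure_r d r hd hr K
  refine ⟨min ε c, lt_min hε hc, fun m hm N hN lam ξ a ha => ?_⟩
  have hm2 : (2 : ℝ) ≤ m := by exact_mod_cast hm
  have hm0 : (0 : ℝ) < m := by linarith
  have hL : 0 ≤ (Real.log m) ^ (((d : ℝ) - 1) / 2) :=
    Real.rpow_nonneg (Real.log_nonneg (by linarith)) _
  refine (ENNReal.ofReal_le_ofReal (min_le_left ε c)).trans
    ((H m hm2 (Fin N) Finset.univ lam ξ a ha (by simpa using hN)).trans ?_)
  apply measure_mono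
  rintro x ⟨hx1, hx2⟩
  refine ⟨hx1, ?_⟩
  rw [err_eq] at hx2
  refine le_trans ?_ hx2
  gcongr
  exact min_le_right _ _

theorem measurable_genDisc {m d : ℕ} (r : ℕ) (lam : Fin m → ℝ) (ξ : Fin m → Fin d → ℝ) :
    Measurable (genDisc r lam ξ) := by
  unfold genDisc kernel
  apply Measurable.sub
  · apply Finset.measurable_fun_prod
    intro i _
    exact ((measurable_pi_apply i).pow_const r).div_const _
  · apply Finset.measurable_fun_sum
    intro μ _
    apply Measurable.const_mul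
    apply Finset.measurable_fun_prod
    intro s _
    apply Measurable.ite _ _ measurable_const
    · exact measurableSet_le measurable_const (measurable_pi_apply s)
    · exact (((measurable_pi_apply s).sub_const _).pow_const _).div_const _

theorem measurable_low {d r : ℕ} (a : Fin d → Fin r → (Fin d → ℝ) → ℝ)
    (ha : ∀ s i, Measurable (a s i)) : Measurable (low a) := by
  unfold low
  apply Finset.measurable_fun_sum
  intro s _
  apply Finset.measurable_fun_sum
  intro i _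
  exact (ha s i).mul ((measurable_pi_apply s).pow_const _)

theorem isProb (d : ℕ) : IsProbabilityMeasure
    (volume.restrict (Set.Icc (0 : Fin d → ℝ) 1)) := by
  constructor
  rw [Measure.restrict_apply_univ, Real.volume_Icc_pi]
  simp

/-- From measure to norms. -/
theorem lower_one {d : ℕ} {F : (Fin d → ℝ) → ℝ} (hF : Measurable F) {c θ : ℝ} (hc : 0 < c)
    (hθ : 0 ≤ θ)
    (h : ENNReal.ofReal c ≤ volume {x : Fin d → ℝ | x ∈ Set.Icc (0 : Fin d → ℝ) 1 ∧
        θ ≤ |F x|}) {p : ENNReal} (hp0 : p ≠ 0) (hp1 : p ≠ ⊤) :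
    ENNReal.ofReal (θ * c ^ (1 / p.toReal)) ≤
      eLpNorm F p (volume.restrict (Set.Icc (0 : Fin d → ℝ) 1)) := by
  have hpos : 0 < p.toReal := ENNReal.toReal_pos hp0 hp1
  refine le_trans ?_ (pow_mul_meas_ge_le_eLpNorm _ hp0 hp1
    hF.aestronglyMeasurable (ENNReal.ofReal θ ^ p.toReal))
  rw [ENNReal.mul_rpow_of_nonneg _ _ (by positivity), ← ENNReal.rpow_mul,
    mul_one_div_cancel hpos.ne', ENNReal.rpow_one, ENNReal.ofReal_mul hθ,
    ← ENNReal.ofReal_rpow_of_pos hc]
  gcongr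
  refine h.trans ?_
  rw [Measure.restrict_apply]
  · apply measure_mono
    rintro x ⟨hx1, hx2⟩
    refine ⟨?_, hx1⟩
    show ENNReal.ofReal θ ^ p.toReal ≤ ‖F x‖ₑ ^ p.toReal
    rw [← ofReal_norm, Real.norm_eq_abs]
    gcongr
  · exact measurableSet_le measurable_const (hF.enorm.pow_const _)

theorem red_le (q : ENNReal) (r m d : ℕ) : redGen q r m d ≤ optGen q r m d := by
  unfold redGen optGen
  refine le_iInf fun lam => le_iInf₂ fun ξ hξ => ?_
  refine (iInf_le _ lam).trans ((iInf₂_le ξ hξ).trans ((iInf_le _ (fun _ _ _ => 0)).trans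
    ((iInf_le _ (fun _ _ => measurable_const)).trans ((iInf_le _ (fun _ _ _ _ => rfl)).trans
      (le_of_eq ?_)))))
  congr 1
  funext t
  unfold low
  simp

theorem opt_le (q : ENNReal) (m d : ℕ) : optGen q 1 m d ≤ optDisc q m d := by
  unfold optDisc optGen
  refine le_iInf₂ fun ξ hξ => ?_
  refine (iInf_le _ (fun _ : Fin m => 1 / (m : ℝ))).trans ((iInf₂_le ξ hξ).trans (le_of_eq ?_))
  congr 1
  funext x
  unfold genDisc kernel
  have h1 : ∀ μ, (∏ s, if ξ μ s ≤ x s then
      (x s - ξ μ s) ^ (1 - 1) / ((1 - 1 : ℕ).factorial : ℝ) else 0) =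
      (Set.Icc (0 : Fin d → ℝ) x).indicator (fun _ => (1:ℝ)) (ξ μ) := by
    intro μ
    by_cases hx : ∀ s, ξ μ s ≤ x s
    · rw [Set.indicator_of_mem (show ξ μ ∈ Set.Icc (0 : Fin d → ℝ) x from ⟨(hξ μ).1, hx⟩)]
      apply Finset.prod_eq_one
      intro s _
      rw [if_pos (hx s)]
      simp
    · rw [Set.indicator_of_notMem (fun h => hx h.2)]
      push Not at hx
      obtain ⟨s, hs⟩ := hx
      apply Finset.prod_eq_zero (Finset.mem_univ s)
      rw [if_neg (not_le.2 hs)]
  simp only [h1]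
  rw [Finset.mul_sum]
  simp

/-- In every dimension `d ≥ 1` and for every smoothness `r ≥ 1`:
(1) for every `K` there is `c > 0` such that for all `m ≥ 2`, all `N ≤ K m` nodes in `ℝ^d`, all real
weights and all functions `a_{s,i}` (`s < d`, `i < r`) where `a_{s,i}` does not depend on `t_s`, the
`r`-discrepancy function minus `Σ_s Σ_i a_{s,i}(t) t_s^i` is at least `c (ln m)^((d-1)/2) / m^r` in
absolute value on a subset of `[0,1]^d` of outer measure at least `c`;
(2) for every `0 < q ≤ ∞` there is `c > 0` such that the optimal `L_q` `r`-discrepancy, and even the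
reduced one, is at least `c (ln m)^((d-1)/2) / m^r` for all `m ≥ 2`;
(3) for `r = 1` there is `C` such that for all `q ≤ 2` and all `m ≥ 2` the reduced discrepancy is at most
`D(m,d)_q`, and this is at most `C (ln m)^((d-1)/2) / m`.
So for `r = 1` and `0 < q ≤ 2` the reduced discrepancy has the order `(ln m)^((d-1)/2) / m`. -/
theorem result (d : ℕ) (hd : 1 ≤ d) :
    (∀ r : ℕ, 1 ≤ r → ∀ K : ℝ, ∃ c : ℝ, 0 < c ∧ ∀ m : ℕ, 2 ≤ m → ∀ N : ℕ, (N : ℝ) ≤ K * m →
      ∀ (lam : Fin N → ℝ) (ξ : Fin N → Fin d → ℝ) (a : Fin d → Fin r → (Fin d → ℝ) → ℝ), Indep a →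
        ENNReal.ofReal c ≤ volume {t : Fin d → ℝ | t ∈ Set.Icc (0 : Fin d → ℝ) 1 ∧
          c * (Real.log m) ^ (((d : ℝ) - 1) / 2) / m ^ r ≤ |genDisc r lam ξ t - low a t|}) ∧
    (∀ r : ℕ, 1 ≤ r → ∀ q : ENNReal, 0 < q → ∃ c : ℝ, 0 < c ∧ ∀ m : ℕ, 2 ≤ m →
      ENNReal.ofReal (c * (Real.log m) ^ (((d : ℝ) - 1) / 2) / m ^ r) ≤ redGen q r m d ∧
      redGen q r m d ≤ optGen q r m d) ∧
    (∃ C : ℝ, 0 < C ∧ ∀ q : ENNReal, q ≤ 2 → ∀ m : ℕ, 2 ≤ m →
      redGen q 1 m d ≤ optDisc q m d ∧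
      optDisc q m d ≤ ENNReal.ofReal (C * (Real.log m) ^ (((d : ℝ) - 1) / 2) / m)) := by
  have hprob := isProb d
  refine ⟨fun r hr => in_measure d r hd hr, fun r hr q hq => ?_, ?_⟩
  · obtain ⟨c, hc, H⟩ := in_measure d r hd hr 1
    set p : ENNReal := min q 1 with hp
    have hp0 : p ≠ 0 := (lt_min hq one_pos).ne'
    have hp1 : p ≠ ⊤ := ne_top_of_le_ne_top ENNReal.one_ne_top (min_le_right _ _)
    refine ⟨c * c ^ (1 / p.toReal), by positivity, fun m hm => ⟨?_, red_le q r m d⟩⟩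
    have hm2 : (2 : ℝ) ≤ m := by exact_mod_cast hm
    have hL : 0 ≤ (Real.log m) ^ (((d : ℝ) - 1) / 2) :=
      Real.rpow_nonneg (Real.log_nonneg (by linarith)) _
    unfold redGen
    refine le_iInf fun lam => le_iInf₂ fun ξ _ => le_iInf fun a => le_iInf₂ fun ham ha => ?_
    have hmeas : Measurable (fun t => genDisc r lam ξ t - low a t) :=
      (measurable_genDisc r lam ξ).sub (measurable_low a ham)
    have h1 := lower_one hmeas hc (θ := c * (Real.log m) ^ (((d : ℝ) - 1) / 2) / m ^ r)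
      (by positivity) (H m hm m (by simp) lam ξ a ha) hp0 hp1
    refine le_trans (le_of_eq ?_) (h1.trans ?_)
    · congr 1
      ring
    · exact eLpNorm_le_eLpNorm_of_exponent_le (min_le_left _ _) hmeas.aestronglyMeasurable
  · obtain ⟨C, hC, H⟩ := H730R2.LU.upper_two d hd
    refine ⟨C, hC, fun q hq m hm => ⟨(red_le q 1 m d).trans (opt_le q m d), ?_⟩⟩
    obtain ⟨ξ, hξ, hb⟩ := H m hm
    unfold optDisc
    refine (iInf₂_le ξ hξ).trans ?_
    have hms : Measurable (H730R2.LU.ld ξ) := by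
      have h := measurable_genDisc 1 (fun _ : Fin m => 1 / (m : ℝ)) ξ
      have h2 : H730R2.LU.ld ξ = genDisc 1 (fun _ : Fin m => 1 / (m : ℝ)) ξ := by
        funext x
        unfold genDisc kernel H730R2.LU.ld
        have h1 : ∀ μ, (∏ s, if ξ μ s ≤ x s then
            (x s - ξ μ s) ^ (1 - 1) / ((1 - 1 : ℕ).factorial : ℝ) else 0) =
            (Set.Icc (0 : Fin d → ℝ) x).indicator (fun _ => (1:ℝ)) (ξ μ) := by
          intro μ
          by_cases hx : ∀ s, ξ μ s ≤ x s
          · rw [Set.indicator_of_mem (show ξ μ ∈ Set.Icc (0 : Fin d → ℝ) x from ⟨(hξ μ).1, hx⟩)]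
            apply Finset.prod_eq_one
            intro s _
            rw [if_pos (hx s)]
            simp
          · rw [Set.indicator_of_notMem (fun h => hx h.2)]
            push Not at hx
            obtain ⟨s, hs⟩ := hx
            apply Finset.prod_eq_zero (Finset.mem_univ s)
            rw [if_neg (not_le.2 hs)]
        simp only [h1]
        rw [Finset.mul_sum]
        simp
      rw [h2]
      exact h
    refine (eLpNorm_le_eLpNorm_of_exponent_le hq (f := H730R2.LU.ld ξ)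
      hms.aestronglyMeasurable).trans hb

end Pool.Agent.Results.MP_173de9_an.AllSmoothness
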