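import Pool.Agent.X122.AC14

/-!
# Anticoncentration of the discrepancy function

For `m` points of `[0,1]^d` (or at most `K m` weighted nodes) the local discrepancy is larger than
`δ (log m)^((d-1)/2) / m` in absolute value outside a set of measure `η`, where `η > 0` is arbitrary
and `δ > 0` depends only on `η`, `d` and `K`: every quantile of the discrepancy function, and not only
its mean, has the order `(log m)^((d-1)/2) / m`.  The same holds in every box, and after the
subtraction of an arbitrary sum of functions of fewer variables.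

Outline of the proof.  Let `D` be the discrepancy function divided by a small multiple of
`(log m)^((d-1)/2)`, and suppose that `|D| ≤ 1` on a set of measure `η`.  Then the function `e^(itD)`
has a large energy (mean square of conditional averages) in the direction of the first coordinate.
By pigeonhole the energy is stable between two scales `2^-k` and `2^-(k+m')`, where `m'` is
proportional to `log m`.  In a cell of two coordinates without points `D` splits into a sum of a
function of the first and a function of the second coordinate; together with the stability of the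
energy this shows that the mixed differences of `D` in the first two coordinates are bounded on most
of a subgrid with `2^m' × 2^m'` points, for a positive proportion of the other coordinates.  The other
coordinates are treated one after the other in the same way.  In the end all mixed differences of `D`
of order `d` are bounded on most of a subgrid which contains about `2^m'` points, and this
contradicts the lower bound for the discrepancy function modulo functions of fewer variables.
-/

set_option autoImplicit false

namespace Pool.Agent.Results.MP_173de9_an.Anticoncentration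

open MeasureTheory Finset

/-- The function `Σ_μ w_μ χ(ξ^μ ≤ x) - M x_1 ⋯ x_d - Σ_s a_s(x)`. -/
noncomputable def disc {N d : ℕ} (w : Fin N → ℝ) (ξ : Fin N → Fin d → ℝ) (M : ℝ)
    (a : Fin d → (Fin d → ℝ) → ℝ) (x : Fin d → ℝ) : ℝ :=
  ∑ μ, (Set.Iic x).indicator (fun _ => w μ) (ξ μ) - M * ∏ s, x s - ∑ s, a s x

theorem disc_eq {N d : ℕ} (w : Fin N → ℝ) (ξ : Fin N → Fin d → ℝ) (M : ℝ)
    (a : Fin d → (Fin d → ℝ) → ℝ) (x : Fin d → ℝ) :
    disc w ξ M a x = X122.GD.DD d univ w ξ M a x := by
  unfold disc X122.GD.DD
  congr 2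
  apply Finset.sum_congr rfl
  intro μ _
  by_cases h : ∀ s, ξ μ s ≤ x s
  · rw [Set.indicator_of_mem (show ξ μ ∈ Set.Iic x from h), Finset.prod_eq_one, mul_one]
    intro s _
    rw [if_pos (h s)]
  · rw [Set.indicator_of_notMem (show ξ μ ∉ Set.Iic x from h)]
    push Not at h
    obtain ⟨s, hs⟩ := h
    rw [Finset.prod_eq_zero (Finset.mem_univ s), mul_zero]
    rw [if_neg (not_le.2 hs)]

/-- For every `d ≥ 2`, every `K` and every `η > 0` there are `δ > 0` and `V₀ > 0` such that for all
finite sets of nodes `ξ^μ` in `ℝ^d` with real weights `w_μ`, all real `M`, all measurable functions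
`a_s` where `a_s` does not depend on `x_s`, and all boxes `Q = [lo, hi]` with `M |Q| ≥ V₀` which
contain at most `K M |Q|` nodes (in `(lo, hi]`), the set of the `x` in `Q` with
`|Σ_μ w_μ χ(ξ^μ ≤ x) - M x_1 ⋯ x_d - Σ_s a_s(x)| ≤ δ (log (M |Q|))^((d-1)/2)` has measure at most
`η |Q|`. -/
theorem result (d : ℕ) (hd : 2 ≤ d) (K η : ℝ) (hη : 0 < η) : ∃ δ : ℝ, 0 < δ ∧ ∃ V₀ : ℝ, 0 < V₀ ∧
    ∀ (N : ℕ) (w : Fin N → ℝ) (ξ : Fin N → Fin d → ℝ) (M : ℝ) (a : Fin d → (Fin d → ℝ) → ℝ),
      (∀ s, Measurable (a s)) → (∀ s x z, a s (Function.update x s z) = a s x) →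
      ∀ lo hi : Fin d → ℝ, (∀ s, lo s < hi s) → V₀ ≤ M * ∏ s, (hi s - lo s) →
      ({μ | ∀ s, lo s < ξ μ s ∧ ξ μ s ≤ hi s}.ncard : ℝ) ≤ K * (M * ∏ s, (hi s - lo s)) →
      volume {x : Fin d → ℝ | x ∈ Set.Icc lo hi ∧
        |disc w ξ M a x| ≤ δ * (Real.log (M * ∏ s, (hi s - lo s))) ^ (((d : ℝ) - 1) / 2)} ≤
        ENNReal.ofReal (η * ∏ s, (hi s - lo s)) := by
  classical
  obtain ⟨δ, hδ, V₀, hV₀, H⟩ := X122.AC.box_main d hd K η hη
  refine ⟨δ, hδ, V₀, by linarith, ?_⟩
  intro N w ξ M a ham ha lo hi hlt hV hcard
  have hset : {μ : Fin N | ∀ s, lo s < ξ μ s ∧ ξ μ s ≤ hi s} =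
      ((univ.filter (fun μ => ∀ s, lo s < ξ μ s ∧ ξ μ s ≤ lo s + (hi s - lo s)) :
        Finset (Fin N)) : Set (Fin N)) := by
    ext μ
    simp
  rw [hset, Set.ncard_coe_finset] at hcard
  have h := H (Fin N) univ w ξ M a ham ha lo (fun s => hi s - lo s) (fun s => sub_pos.2 (hlt s)) hV
    (univ.filter (fun μ => ∀ s, lo s < ξ μ s ∧ ξ μ s ≤ lo s + (hi s - lo s)))
    (fun μ => by rw [mem_filter]) hcard
  refine (measure_mono ?_).trans h
  rintro x ⟨hx1, hx2⟩
  have e : (lo + fun s => hi s - lo s) = hi := by
    funext s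
    simp
  refine ⟨by rw [e]; exact hx1, ?_⟩
  rw [← disc_eq]
  exact hx2

end Pool.Agent.Results.MP_173de9_an.Anticoncentration
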