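import Pool.Agent.X122.GDf

/-!
# The sharp lower bound for the discrepancy in every box

Let `Q` be an axis-parallel box, `M` a real number with `M |Q| ≥ 2`.  For every finite point set (with
any number of points) the function `#{points ≤ x} - M x_1 ⋯ x_d` is at least
`c (log (M |Q|))^((d-1)/2)` in absolute value on a part of `Q` of measure at least `c |Q|`, even after
the subtraction of an arbitrary sum of functions of fewer variables.  For arbitrary real weights the
same holds if `Q` contains at most `K M |Q|` points.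
-/

set_option autoImplicit false

namespace Pool.Agent.Results.MP_173de9_an.EveryBox

open MeasureTheory Finset

/-- The function `Σ_μ w_μ χ(ξ^μ ≤ x) - M x_1 ⋯ x_d - Σ_s a_s(x)`. -/
noncomputable def disc {N d : ℕ} (w : Fin N → ℝ) (ξ : Fin N → Fin d → ℝ) (M : ℝ)
    (a : Fin d → (Fin d → ℝ) → ℝ) (x : Fin d → ℝ) : ℝ :=
  ∑ μ, (Set.Iic x).indicator (fun _ => w μ) (ξ μ) - M * ∏ s, x s - ∑ s, a s x

theorem disc_eq {N d : ℕ} (w : Fin N → ℝ) (ξ : Fin N → Fin d → ℝ) (M : ℝ)
    (a : Fin d → (Fin d → ℝ) → ℝ) (x : Fin d → ℝ) :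
    disc w ξ M a x = X122.GD.DD d univ w ξ M a x := by
  unfold disc X122.GD.DD
  congr 2
  apply Finset.sum_congr rfl
  intro μ _
  by_cases h : ∀ s, ξ μ s ≤ x s
  · rw [Set.indicator_of_mem (show ξ μ ∈ Set.Iic x from h), Finset.prod_eq_one, mul_one]
    intro s _
    rw [if_pos (h s)]
  · rw [Set.indicator_of_notMem (show ξ μ ∉ Set.Iic x from h)]
    push Not at h
    obtain ⟨s, hs⟩ := h
    rw [Finset.prod_eq_zero (Finset.mem_univ s), mul_zero]
    rw [if_neg (not_le.2 hs)]

/-- vertex of a box -/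
noncomputable def vtx {d : ℕ} (lo hi : Fin d → ℝ) (A : Finset (Fin d)) (s : Fin d) : ℝ :=
  if s ∈ A then hi s else lo s

/-- the sign of a vertex -/
noncomputable def sg {d : ℕ} (A : Finset (Fin d)) : ℝ := (-1) ^ (univ \ A).card

theorem mixed_prod {d : ℕ} (g : Fin d → ℝ → ℝ) (lo hi : Fin d → ℝ) :
    ∑ A : Finset (Fin d), sg A * ∏ s, g s (vtx lo hi A s) = ∏ s, (g s (hi s) - g s (lo s)) := by
  have h := Finset.prod_add (fun s => g s (hi s)) (fun s => -g s (lo s)) (univ : Finset (Fin d))
  simp only [← sub_eq_add_neg] at h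
  rw [h, Finset.powerset_univ]
  apply Finset.sum_congr rfl
  intro A _
  have h1 : ∏ s, g s (vtx lo hi A s) = (∏ s ∈ A, g s (hi s)) * ∏ s ∈ univ \ A, g s (lo s) := by
    rw [← Finset.prod_sdiff (Finset.subset_univ A), mul_comm]
    congr 1
    · apply Finset.prod_congr rfl
      intro s hs
      unfold vtx
      rw [if_pos hs]
    · apply Finset.prod_congr rfl
      intro s hs
      unfold vtx
      rw [if_neg (Finset.mem_sdiff.1 hs).2]
  rw [h1, Finset.prod_neg]
  unfold sg
  ring

theorem mixed_zero {d : ℕ} (s : Fin d) (F : (Fin d → ℝ) → ℝ)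
    (hF : ∀ x z, F (Function.update x s z) = F x) (lo hi : Fin d → ℝ) :
    ∑ A : Finset (Fin d), sg A * F (vtx lo hi A) = 0 := by
  classical
  apply Finset.sum_involution (fun A _ => if s ∈ A then A.erase s else insert s A)
  · intro A _
    by_cases hs : s ∈ A
    · rw [if_pos hs]
      have h1 : vtx lo hi (A.erase s) = Function.update (vtx lo hi A) s (lo s) := by
        funext s'
        by_cases h : s' = s
        · subst h; simp [vtx]
        · rw [Function.update_of_ne h]
          unfold vtx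
          simp [h]
      rw [h1, hF]
      have h2 : sg (A.erase s) = - sg A := by
        unfold sg
        have : univ \ A.erase s = insert s (univ \ A) := by
          ext s'
          simp only [Finset.mem_sdiff, Finset.mem_univ, true_and, Finset.mem_erase,
            Finset.mem_insert]
          tauto
        rw [this, Finset.card_insert_of_notMem (by simp [hs]), pow_succ]
        ring
      rw [h2]
      ring
    · rw [if_neg hs]
      have h1 : vtx lo hi (insert s A) = Function.update (vtx lo hi A) s (hi s) := by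
        funext s'
        by_cases h : s' = s
        · subst h; simp [vtx]
        · rw [Function.update_of_ne h]
          unfold vtx
          simp [h]
      rw [h1, hF]
      have h2 : sg A = - sg (insert s A) := by
        unfold sg
        have : univ \ A = insert s (univ \ insert s A) := by
          ext s'
          simp only [Finset.mem_sdiff, Finset.mem_univ, true_and, Finset.mem_insert]
          by_cases h : s' = s
          · subst h; simp [hs]
          · simp [h]
        rw [this, Finset.card_insert_of_notMem (by simp), pow_succ]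
        ring
      rw [h2]
      ring
  · intro A _ _
    by_cases hs : s ∈ A
    · rw [if_pos hs]
      intro h
      exact (Finset.notMem_erase s A) (by rw [h]; exact hs)
    · rw [if_neg hs]
      intro h
      exact hs (by rw [← h]; exact Finset.mem_insert_self s A)
  · intro A _
    by_cases hs : s ∈ A
    · simp [hs]
    · simp [hs]
  · intro A _
    by_cases hs : s ∈ A
    · simp [hs]
    · simp [hs]

/-- the mixed difference of the discrepancy function counts the points in a box -/
theorem mixed_disc {N d : ℕ} (ξ : Fin N → Fin d → ℝ) (M : ℝ)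
    (a : Fin d → (Fin d → ℝ) → ℝ) (ha : ∀ s x z, a s (Function.update x s z) = a s x)
    (lo hi : Fin d → ℝ) (hlt : ∀ s, lo s ≤ hi s) :
    ∑ A : Finset (Fin d), sg A * disc (fun _ => 1) ξ M a (vtx lo hi A) =
      ((univ.filter (fun μ => ∀ s, lo s < ξ μ s ∧ ξ μ s ≤ hi s)).card : ℝ) -
        M * ∏ s, (hi s - lo s) := by
  classical
  simp only [disc_eq, X122.GD.DD, one_mul]
  have h1 : ∑ A : Finset (Fin d), sg A * (∑ μ : Fin N, ∏ s : Fin d,
      (if ξ μ s ≤ vtx lo hi A s then (1 : ℝ) else 0)) =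
      ((univ.filter (fun μ => ∀ s, lo s < ξ μ s ∧ ξ μ s ≤ hi s)).card : ℝ) := by
    simp only [Finset.mul_sum]
    rw [Finset.sum_comm, Finset.card_filter]
    push_cast
    apply Finset.sum_congr rfl
    intro μ _
    rw [mixed_prod (fun s x => if ξ μ s ≤ x then (1 : ℝ) else 0)]
    by_cases h : ∀ s, lo s < ξ μ s ∧ ξ μ s ≤ hi s
    · rw [if_pos h]
      apply Finset.prod_eq_one
      intro s _
      rw [if_pos (h s).2, if_neg (not_le.2 (h s).1), sub_zero]
    · rw [if_neg h]
      push Not at h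
      obtain ⟨s, hs⟩ := h
      apply Finset.prod_eq_zero (Finset.mem_univ s)
      by_cases h2 : lo s < ξ μ s
      · rw [if_neg (not_le.2 (hs h2)), if_neg (not_le.2 h2), sub_zero]
      · push Not at h2
        rw [if_pos (h2.trans (hlt s)), if_pos h2, sub_self]
  have h2 : ∑ A : Finset (Fin d), sg A * (M * ∏ s, vtx lo hi A s) = M * ∏ s, (hi s - lo s) := by
    rw [← mixed_prod (fun _ x => x) lo hi, Finset.mul_sum]
    apply Finset.sum_congr rfl
    intro A _
    ring
  have h3 : ∑ A : Finset (Fin d), sg A * ∑ s, a s (vtx lo hi A) = 0 := by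
    simp only [Finset.mul_sum]
    rw [Finset.sum_comm]
    exact Finset.sum_eq_zero fun s _ => mixed_zero s (a s) (ha s) lo hi
  simp only [mul_sub, Finset.sum_sub_distrib]
  rw [h1, h2, h3, sub_zero]

/-- powers of the logarithm are bounded by the identity -/
theorem log_bound (α : ℝ) (hα : 0 ≤ α) (V : ℝ) (hV : 1 ≤ V) :
    (Real.log V) ^ α ≤ (α + 1) ^ α * V := by
  have hV0 : 0 < V := by linarith
  have h1 : Real.log V ≤ V ^ (1 / (α + 1)) / (1 / (α + 1)) :=
    Real.log_le_rpow_div hV0.le (by positivity)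
  have h2 : (Real.log V) ^ α ≤ ((α + 1) * V ^ (1 / (α + 1))) ^ α := by
    apply Real.rpow_le_rpow (Real.log_nonneg hV) _ hα
    refine h1.trans (le_of_eq ?_)
    field_simp
  refine h2.trans ?_
  rw [Real.mul_rpow (by positivity) (by positivity), ← Real.rpow_mul hV0.le]
  gcongr
  calc V ^ (1 / (α + 1) * α) ≤ V ^ (1 : ℝ) := by
        apply Real.rpow_le_rpow_of_exponent_le hV
        rw [one_div, inv_mul_le_iff₀ (by positivity)]
        linarith
    _ = V := Real.rpow_one V

/-- the case of unit weights -/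
theorem unit_weights (d : ℕ) (hd : 1 ≤ d) : ∃ c : ℝ, 0 < c ∧
    ∀ (N : ℕ) (ξ : Fin N → Fin d → ℝ) (M : ℝ) (a : Fin d → (Fin d → ℝ) → ℝ),
      (∀ s x z, a s (Function.update x s z) = a s x) →
      ∀ lo hi : Fin d → ℝ, (∀ s, lo s < hi s) → 2 ≤ M * ∏ s, (hi s - lo s) →
      ENNReal.ofReal (c * ∏ s, (hi s - lo s)) ≤ volume {x : Fin d → ℝ | x ∈ Set.Icc lo hi ∧
        c * (Real.log (M * ∏ s, (hi s - lo s))) ^ (((d : ℝ) - 1) / 2) ≤
          |disc (fun _ => 1) ξ M a x|} := by
  classical
  set α : ℝ := ((d : ℝ) - 1) / 2 with hαdef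
  have hd1 : (1 : ℝ) ≤ d := by exact_mod_cast hd
  have hα : 0 ≤ α := by rw [hαdef]; linarith
  set K : ℝ := 1 + 2 ^ d * ((α + 1) ^ α * (8 / 7)) with hK
  have hK0 : 0 ≤ K := by positivity
  obtain ⟨c₁, hc₁, H⟩ := X122.GD.box_few d hd K hK0
  set c : ℝ := min (min 1 (1 / (2 ^ d * (8 * d) ^ d))) (min (c₁ * (1 / 2) ^ α) (c₁ * (7 / 8))) with hc
  have hc0 : 0 < c := by
    refine lt_min (lt_min one_pos (by positivity)) (lt_min (by positivity) (by positivity))
  have hcA : c ≤ 1 := (min_le_left _ _).trans (min_le_left _ _)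
  have hcB : c ≤ 1 / (2 ^ d * (8 * d) ^ d) := (min_le_left _ _).trans (min_le_right _ _)
  have hcC : c ≤ c₁ * (1 / 2) ^ α := (min_le_right _ _).trans (min_le_left _ _)
  have hcD : c ≤ c₁ * (7 / 8) := (min_le_right _ _).trans (min_le_right _ _)
  refine ⟨c, hc0, ?_⟩
  intro N ξ M a ha lo hi hlt hV
  set Q : ℝ := ∏ s, (hi s - lo s) with hQ
  have hQ0 : 0 < Q := Finset.prod_pos fun s _ => sub_pos.2 (hlt s)
  set V : ℝ := M * Q with hVdef
  have hV0 : 0 < V := by linarith
  have hM0 : 0 < M := by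
    by_contra h
    push Not at h
    have : M * Q ≤ 0 := mul_nonpos_of_nonpos_of_nonneg h hQ0.le
    linarith
  by_contra hcon
  push Not at hcon
  set θ : ℝ := c * (Real.log V) ^ α with hθ
  have hlogV : 0 ≤ Real.log V := Real.log_nonneg (by linarith)
  have hθ0 : 0 ≤ θ := by positivity
  set Bad : Set (Fin d → ℝ) := {x | x ∈ Set.Icc lo hi ∧ θ ≤ |disc (fun _ => 1) ξ M a x|} with hBad
  -- a small translation
  set δ : Fin d → ℝ := fun s => (hi s - lo s) / (8 * d) with hδ
  have hδ0 : ∀ s, 0 < δ s := fun s => div_pos (sub_pos.2 (hlt s)) (by positivity)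
  have hprodδ : ∏ s, δ s = Q / (8 * d) ^ d := by
    rw [hδ, hQ, Finset.prod_div_distrib, Finset.prod_const, Finset.card_univ, Fintype.card_fin]
  have hvolZ : volume (Set.Icc (0 : Fin d → ℝ) δ) = ENNReal.ofReal (∏ s, δ s) := by
    rw [Real.volume_Icc_pi, ← ENNReal.ofReal_prod_of_nonneg fun s _ => by simpa using (hδ0 s).le]
    simp
  obtain ⟨z, hz, hzA⟩ : ∃ z ∈ Set.Icc (0 : Fin d → ℝ) δ, ∀ A : Finset (Fin d),
      vtx (lo + z) (hi - δ + z) A ∉ Bad := by
    by_contra hno
    push Not at hno
    have hcov : Set.Icc (0 : Fin d → ℝ) δ ⊆ ⋃ A : Finset (Fin d),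
        (fun z => vtx lo (hi - δ) A + z) ⁻¹' Bad := by
      intro z hz
      obtain ⟨A, hA⟩ := hno z hz
      rw [Set.mem_iUnion]
      refine ⟨A, ?_⟩
      have : vtx lo (hi - δ) A + z = vtx (lo + z) (hi - δ + z) A := by
        funext s
        unfold vtx
        by_cases h : s ∈ A <;> simp [h]
      show vtx lo (hi - δ) A + z ∈ Bad
      rw [this]
      exact hA
    have h1 : ENNReal.ofReal (∏ s, δ s) ≤ ∑ A : Finset (Fin d), volume Bad := by
      rw [← hvolZ]
      refine (measure_mono hcov).trans ((measure_iUnion_fintype_le _ _).trans ?_)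
      apply Finset.sum_le_sum
      intro A _
      rw [measure_preimage_add]
    rw [Finset.sum_const, Finset.card_univ, Fintype.card_finset, Fintype.card_fin,
      nsmul_eq_mul] at h1
    have h2 : ENNReal.ofReal (∏ s, δ s) < ((2 ^ d : ℕ) : ENNReal) * ENNReal.ofReal (c * Q) := by
      refine h1.trans_lt ?_
      apply ENNReal.mul_lt_mul_right (by positivity) (ENNReal.natCast_ne_top _) hcon
    rw [← ENNReal.ofReal_natCast, ← ENNReal.ofReal_mul (by positivity), hprodδ] at h2
    have h3 := (ENNReal.ofReal_lt_ofReal_iff (by positivity)).1 h2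
    have h4 : ((2 ^ d : ℕ) : ℝ) * (c * Q) ≤ Q / (8 * d) ^ d := by
      push_cast
      calc (2 : ℝ) ^ d * (c * Q) ≤ 2 ^ d * (1 / (2 ^ d * (8 * d) ^ d) * Q) := by gcongr
        _ = Q / (8 * d) ^ d := by field_simp
    linarith
  set lo' : Fin d → ℝ := lo + z with hlo'
  set hi' : Fin d → ℝ := hi - δ + z with hhi'
  have hz0 : ∀ s, 0 ≤ z s := fun s => hz.1 s
  have hz1 : ∀ s, z s ≤ δ s := fun s => hz.2 s
  have hδle : ∀ s, δ s ≤ (hi s - lo s) / 8 := by
    intro s
    rw [hδ]
    apply div_le_div_of_nonneg_left (sub_pos.2 (hlt s)).le (by norm_num)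
    linarith
  have hL : ∀ s, hi' s - lo' s = (hi s - lo s) * (1 - 1 / (8 * d)) := by
    intro s
    rw [hlo', hhi', hδ]
    simp only [Pi.add_apply, Pi.sub_apply]
    field_simp
    ring
  have hfac : (7 : ℝ) / 8 ≤ 1 - 1 / (8 * d) := by
    have : 1 / (8 * (d : ℝ)) ≤ 1 / 8 := by
      apply one_div_le_one_div_of_le (by norm_num)
      linarith
    linarith
  have hlt' : ∀ s, lo' s < hi' s := by
    intro s
    have := hL s
    have h2 : 0 < (hi s - lo s) * (1 - 1 / (8 * (d : ℝ))) :=
      mul_pos (sub_pos.2 (hlt s)) (by linarith)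
    linarith
  have hQ' : ∏ s, (hi' s - lo' s) = Q * (1 - 1 / (8 * d)) ^ d := by
    rw [Finset.prod_congr rfl fun s _ => hL s, Finset.prod_mul_distrib, Finset.prod_const,
      Finset.card_univ, Fintype.card_fin]
  have hbern : (7 : ℝ) / 8 ≤ (1 - 1 / (8 * d)) ^ d := by
    have h := one_add_mul_le_pow (a := -(1 / (8 * (d : ℝ)))) (by
      have : 1 / (8 * (d : ℝ)) ≤ 1 / 8 := by
        apply one_div_le_one_div_of_le (by norm_num)
        linarith
      linarith) d
    have h2 : 1 + (d : ℝ) * -(1 / (8 * (d : ℝ))) = 7 / 8 := by field_simp; norm_num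
    rw [h2] at h
    rw [sub_eq_add_neg]
    exact h
  have hfac1 : (1 - 1 / (8 * (d : ℝ))) ^ d ≤ 1 := by
    apply pow_le_one₀ (by linarith)
    have : 0 ≤ 1 / (8 * (d : ℝ)) := by positivity
    linarith
  set Q' : ℝ := ∏ s, (hi' s - lo' s) with hQ'def
  have hQ'1 : 7 / 8 * Q ≤ Q' := by
    rw [hQ', mul_comm]
    exact mul_le_mul_of_nonneg_left hbern hQ0.le
  have hV' : 7 / 8 * V ≤ M * Q' := by
    rw [hVdef]
    calc 7 / 8 * (M * Q) = M * (7 / 8 * Q) := by ring
      _ ≤ M * Q' := mul_le_mul_of_nonneg_left hQ'1 hM0.le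
  have hV'1 : 1 ≤ M * Q' := by linarith
  -- the vertices are in the box
  have hvtx : ∀ A : Finset (Fin d), vtx lo' hi' A ∈ Set.Icc lo hi := by
    intro A
    constructor
    · intro s
      unfold vtx
      have h1 := hz0 s
      have h2 := hδle s
      have h3 := hlt s
      split_ifs
      · show lo s ≤ hi s - δ s + z s
        linarith
      · show lo s ≤ lo s + z s
        linarith
    · intro s
      unfold vtx
      have h1 := hz1 s
      have h2 := hδle s
      have h3 := hlt s
      split_ifs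
      · show hi s - δ s + z s ≤ hi s
        linarith
      · show lo s + z s ≤ hi s
        linarith
  have hsmall : ∀ A : Finset (Fin d), |disc (fun _ => 1) ξ M a (vtx lo' hi' A)| ≤ θ := by
    intro A
    by_contra h
    push Not at h
    exact hzA A ⟨hvtx A, h.le⟩
  have hmix := mixed_disc ξ M a ha lo' hi' (fun s => (hlt' s).le)
  have hcount : ((univ.filter (fun μ => ∀ s, lo' s < ξ μ s ∧ ξ μ s ≤ hi' s)).card : ℝ) ≤
      M * Q' + 2 ^ d * θ := by
    have h1 : |∑ A : Finset (Fin d), sg A * disc (fun _ => 1) ξ M a (vtx lo' hi' A)| ≤ 2 ^ d * θ := by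
      refine (Finset.abs_sum_le_sum_abs _ _).trans ?_
      calc ∑ A : Finset (Fin d), |sg A * disc (fun _ => 1) ξ M a (vtx lo' hi' A)|
          ≤ ∑ _A : Finset (Fin d), θ := by
            apply Finset.sum_le_sum
            intro A _
            rw [abs_mul]
            have : |sg A| = 1 := by
              unfold sg
              rw [abs_pow, abs_neg, abs_one, one_pow]
            rw [this, one_mul]
            exact hsmall A
        _ = 2 ^ d * θ := by
            rw [Finset.sum_const, Finset.card_univ, Fintype.card_finset, Fintype.card_fin,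
              nsmul_eq_mul]
            push_cast
            ring
    rw [hmix] at h1
    have := (abs_le.1 h1).2
    linarith
  have hθV : θ ≤ (α + 1) ^ α * (8 / 7) * (M * Q') := by
    calc θ ≤ 1 * (Real.log V) ^ α := by
          rw [hθ]
          exact mul_le_mul_of_nonneg_right hcA (by positivity)
      _ = (Real.log V) ^ α := one_mul _
      _ ≤ (α + 1) ^ α * V := log_bound α hα V (by linarith)
      _ ≤ (α + 1) ^ α * (8 / 7 * (M * Q')) := by
          apply mul_le_mul_of_nonneg_left _ (by positivity)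
          linarith
      _ = _ := by ring
  have hfew : ((univ.filter (fun μ => ∀ s, lo' s < ξ μ s ∧ ξ μ s ≤ lo' s +
      (hi' s - lo' s))).card : ℝ) ≤ K * (M * ∏ s, (hi' s - lo' s)) := by
    have e : (univ.filter (fun μ : Fin N => ∀ s, lo' s < ξ μ s ∧ ξ μ s ≤ lo' s +
        (hi' s - lo' s))) = univ.filter (fun μ => ∀ s, lo' s < ξ μ s ∧ ξ μ s ≤ hi' s) := by
      apply Finset.filter_congr
      intro μ _
      simp only [add_sub_cancel]
    rw [e]
    refine hcount.trans ?_
    rw [← hQ'def, hK]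
    have : (2 : ℝ) ^ d * θ ≤ 2 ^ d * ((α + 1) ^ α * (8 / 7) * (M * Q')) :=
      mul_le_mul_of_nonneg_left hθV (by positivity)
    nlinarith
  have hfinal := H M (Fin N) univ (fun _ => 1) ξ a ha lo' (fun s => hi' s - lo' s)
    (fun s => sub_pos.2 (hlt' s)) (by rw [← hQ'def]; exact hV'1) hfew
  rw [← hQ'def] at hfinal
  have hsub : {x : Fin d → ℝ | x ∈ Set.Icc lo' (lo' + fun s => hi' s - lo' s) ∧
      c₁ * (Real.log (M * Q')) ^ (((d : ℝ) - 1) / 2) ≤
        |X122.GD.DD d univ (fun _ => 1) ξ M a x|} ⊆ Bad := by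
    rintro x ⟨hx1, hx2⟩
    constructor
    · constructor
      · intro s
        have h1 := hx1.1 s
        have h2 : lo' s = lo s + z s := rfl
        have h3 := hz0 s
        linarith
      · intro s
        have h1 : x s ≤ lo' s + (hi' s - lo' s) := hx1.2 s
        have h2 : hi' s = hi s - δ s + z s := rfl
        have h3 := hz1 s
        linarith
    · rw [disc_eq]
      refine le_trans ?_ hx2
      rw [hθ, ← hαdef]
      have hlog : 1 / 2 * Real.log V ≤ Real.log (M * Q') := by
        have h1 : Real.log (7 / 8 * V) ≤ Real.log (M * Q') :=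
          Real.log_le_log (by positivity) hV'
        have h2 : 1 / 2 * Real.log V ≤ Real.log (7 / 8 * V) := by
          have h3 : Real.log V ≤ Real.log ((7 / 8 * V) ^ 2) := by
            apply Real.log_le_log hV0
            nlinarith
          rw [Real.log_pow] at h3
          push_cast at h3
          linarith
        linarith
      calc c * (Real.log V) ^ α ≤ c₁ * (1 / 2) ^ α * (Real.log V) ^ α := by gcongr
        _ = c₁ * (1 / 2 * Real.log V) ^ α := by
            rw [Real.mul_rpow (by norm_num) hlogV]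
            ring
        _ ≤ c₁ * (Real.log (M * Q')) ^ α := by
            gcongr
  have hlast := hfinal.trans (measure_mono hsub)
  have h5 : ENNReal.ofReal (c * Q) ≤ ENNReal.ofReal (c₁ * Q') := by
    apply ENNReal.ofReal_le_ofReal
    calc c * Q ≤ c₁ * (7 / 8) * Q := mul_le_mul_of_nonneg_right hcD hQ0.le
      _ = c₁ * (7 / 8 * Q) := by ring
      _ ≤ c₁ * Q' := mul_le_mul_of_nonneg_left hQ'1 hc₁.le
  exact absurd (h5.trans hlast) (not_le.2 hcon)

/-- For every `d ≥ 1` and `K` there is `c > 0` such that for all finite sets of nodes `ξ^μ` in `ℝ^d`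
with weights `w_μ`, all real `M`, all functions `a_s` where `a_s` does not depend on `x_s`, and all
boxes `Q = [lo, hi]` with `M |Q| ≥ 2`: if all weights are `1`, or if at most `K M |Q|` nodes lie in
`(lo, hi]`, then `Σ_μ w_μ χ(ξ^μ ≤ x) - M x_1 ⋯ x_d - Σ_s a_s(x)` is at least
`c (log (M |Q|))^((d-1)/2)` in absolute value on a subset of `Q` of outer measure at least `c |Q|`. -/
theorem result (d : ℕ) (hd : 1 ≤ d) (K : ℝ) : ∃ c : ℝ, 0 < c ∧
    ∀ (N : ℕ) (w : Fin N → ℝ) (ξ : Fin N → Fin d → ℝ) (M : ℝ) (a : Fin d → (Fin d → ℝ) → ℝ),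
      (∀ s x z, a s (Function.update x s z) = a s x) →
      ∀ lo hi : Fin d → ℝ, (∀ s, lo s < hi s) → 2 ≤ M * ∏ s, (hi s - lo s) →
      ((∀ μ, w μ = 1) ∨ ({μ | ∀ s, lo s < ξ μ s ∧ ξ μ s ≤ hi s}.ncard : ℝ) ≤
        K * (M * ∏ s, (hi s - lo s))) →
      ENNReal.ofReal (c * ∏ s, (hi s - lo s)) ≤ volume {x : Fin d → ℝ | x ∈ Set.Icc lo hi ∧
        c * (Real.log (M * ∏ s, (hi s - lo s))) ^ (((d : ℝ) - 1) / 2) ≤
          |disc w ξ M a x|} := by
  classical
  obtain ⟨c₁, hc₁, H₁⟩ := unit_weights d hd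
  obtain ⟨c₂, hc₂, H₂⟩ := X122.GD.box_few d hd (max K 0) (le_max_right _ _)
  refine ⟨min c₁ c₂, lt_min hc₁ hc₂, ?_⟩
  intro N w ξ M a ha lo hi hlt hV hcase
  have hQ0 : 0 < ∏ s, (hi s - lo s) := Finset.prod_pos fun s _ => sub_pos.2 (hlt s)
  have hlog : 0 ≤ (Real.log (M * ∏ s, (hi s - lo s))) ^ (((d : ℝ) - 1) / 2) :=
    Real.rpow_nonneg (Real.log_nonneg (by linarith)) _
  rcases hcase with h1 | h2
  · have hw : w = fun _ => 1 := funext h1
    subst hw
    refine (ENNReal.ofReal_le_ofReal (mul_le_mul_of_nonneg_right (min_le_left _ _) hQ0.le)).trans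
      ((H₁ N ξ M a ha lo hi hlt hV).trans (measure_mono ?_))
    rintro x ⟨hx1, hx2⟩
    exact ⟨hx1, (mul_le_mul_of_nonneg_right (min_le_left _ _) hlog).trans hx2⟩
  · have hset : {μ : Fin N | ∀ s, lo s < ξ μ s ∧ ξ μ s ≤ hi s} =
        ((univ.filter (fun μ => ∀ s, lo s < ξ μ s ∧ ξ μ s ≤ lo s + (hi s - lo s)) :
          Finset (Fin N)) : Set (Fin N)) := by
      ext μ
      simp
    rw [hset, Set.ncard_coe_finset] at h2
    have h3 := H₂ M (Fin N) univ w ξ a ha lo (fun s => hi s - lo s)
      (fun s => sub_pos.2 (hlt s)) (by linarith) (h2.trans (by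
        apply mul_le_mul_of_nonneg_right (le_max_left _ _)
        linarith))
    refine (ENNReal.ofReal_le_ofReal (mul_le_mul_of_nonneg_right (min_le_right _ _) hQ0.le)).trans
      (h3.trans (measure_mono ?_))
    rintro x ⟨hx1, hx2⟩
    have e : (lo + fun s => hi s - lo s) = hi := by
      funext s
      simp
    rw [e] at hx1
    rw [← disc_eq] at hx2
    exact ⟨hx1, (mul_le_mul_of_nonneg_right (min_le_right _ _) hlog).trans hx2⟩

end Pool.Agent.Results.MP_173de9_an.EveryBox
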