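import Mathlib
import Pool.Agent.X27.Disc.Low
import Pool.Agent.X27.Disc.Up

/-!
# MP_173de9_an: point sets closed under coordinatewise minima, maxima or medians

`toward c s t` is the point of the interval between `s` and `t` which is nearest to
`c ∈ [-∞, ∞]`: the minimum of `s` and `t` for `c = -∞`, the maximum for `c = ∞`, the median of
`s, t, c` for real `c`. We consider the finite point sets (repetitions allowed) whose set of points
is closed under coordinatewise minima, or under coordinatewise maxima, or under coordinatewise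
medians of three points, or more generally under the coordinatewise operation `toward c` for some
`c ∈ [-∞, ∞]^d`. For them both questions are settled: the optimal `L_q` star discrepancy of
`m`-point sets of this kind has the exact order `m^(-1/d)` for every `1 ≤ q ≤ ∞`, in particular for
`q = 1` and for `q = ∞`, and the regular grid is optimal up to a constant. The lower bound holds in
measure, for arbitrary real weights, and modulo arbitrary functions of fewer variables.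
-/

set_option autoImplicit false

namespace Pool.Agent.Results.MP_173de9_an.MinClosedSets

open MeasureTheory

/-- The point of the interval between `s` and `t` which is nearest to `c ∈ [-∞, ∞]`. -/
noncomputable def toward (c : EReal) (s t : ℝ) : ℝ :=
  if c = ⊥ then min s t else if c = ⊤ then max s t else max (min s t) (min (max s t) c.toReal)

/-- The median of three real numbers. -/
noncomputable def median (s t u : ℝ) : ℝ := max (min s t) (min (max s t) u)

/-- The set of the points `ξ^μ` is closed under coordinatewise minima. -/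
def MinClosed {m d : ℕ} (ξ : Fin m → Fin d → ℝ) : Prop :=
  ∀ μ ν, ∃ κ, ∀ i, ξ κ i = min (ξ μ i) (ξ ν i)

/-- The set of the points `ξ^μ` is closed under coordinatewise maxima. -/
def MaxClosed {m d : ℕ} (ξ : Fin m → Fin d → ℝ) : Prop :=
  ∀ μ ν, ∃ κ, ∀ i, ξ κ i = max (ξ μ i) (ξ ν i)

/-- The set of the points `ξ^μ` is closed under coordinatewise medians. -/
def MedianClosed {m d : ℕ} (ξ : Fin m → Fin d → ℝ) : Prop :=
  ∀ μ ν ρ, ∃ κ, ∀ i, ξ κ i = median (ξ μ i) (ξ ν i) (ξ ρ i)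

/-- The set of the points `ξ^μ` is closed under the coordinatewise operation `toward c`. -/
def ClosedToward {m d : ℕ} (c : Fin d → EReal) (ξ : Fin m → Fin d → ℝ) : Prop :=
  ∀ μ ν, ∃ κ, ∀ i, ξ κ i = toward (c i) (ξ μ i) (ξ ν i)

/-- The point sets closed under minima, or maxima, or medians, or `toward c` for some `c`. -/
def OpClosed {m d : ℕ} (ξ : Fin m → Fin d → ℝ) : Prop :=
  MinClosed ξ ∨ MaxClosed ξ ∨ MedianClosed ξ ∨ ∃ c : Fin d → EReal, ClosedToward c ξ

/-- The local discrepancy `∏ x_j - (1/m) Σ_μ χ_{[0,x]}(ξ^μ)` of `m` points `ξ` at `x`. -/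
noncomputable def localDisc {m d : ℕ} (ξ : Fin m → Fin d → ℝ) (x : Fin d → ℝ) : ℝ :=
  ∏ j, x j - (1 / (m:ℝ)) * ∑ μ : Fin m, (Set.Icc (0 : Fin d → ℝ) x).indicator (fun _ => (1:ℝ)) (ξ μ)

/-- `D(ξ,m,d)_q`: the `L_q` norm of the local discrepancy over `[0,1]^d`. -/
noncomputable def starDisc (q : ENNReal) {m d : ℕ} (ξ : Fin m → Fin d → ℝ) : ENNReal :=
  eLpNorm (localDisc ξ) q (volume.restrict (Set.Icc (0 : Fin d → ℝ) 1))

/-- The infimum of `D(ξ,m,d)_q` over all `m`-point sets `ξ` in `[0,1]^d` (repetitions allowed) which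
are closed under minima, or maxima, or medians, or `toward c` for some `c ∈ [-∞, ∞]^d`. -/
noncomputable def closedDisc (q : ENNReal) (m d : ℕ) : ENNReal :=
  ⨅ (ξ : Fin m → Fin d → ℝ) (_ : ∀ μ, ξ μ ∈ Set.Icc (0 : Fin d → ℝ) 1) (_ : OpClosed ξ), starDisc q ξ

/-- The infimum of `D(ξ,m,d)_q` over all `m`-point sets `ξ` in `[0,1]^d` (repetitions allowed) which
are closed under minima and under maxima. -/
noncomputable def latticeDisc (q : ENNReal) (m d : ℕ) : ENNReal :=
  ⨅ (ξ : Fin m → Fin d → ℝ) (_ : ∀ μ, ξ μ ∈ Set.Icc (0 : Fin d → ℝ) 1)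
    (_ : MinClosed ξ ∧ MaxClosed ξ), starDisc q ξ

theorem measurable_localDisc {m d : ℕ} (ξ : Fin m → Fin d → ℝ) : Measurable (localDisc ξ) := by
  classical
  unfold localDisc
  apply Measurable.sub
  · apply Finset.measurable_fun_prod
    intro i _
    exact measurable_pi_apply i
  · apply Measurable.const_mul
    apply Finset.measurable_fun_sum
    intro μ _
    have h : (fun x : Fin d → ℝ => (Set.Icc (0 : Fin d → ℝ) x).indicator (fun _ => (1:ℝ)) (ξ μ)) =
        (fun x => if (0 : Fin d → ℝ) ≤ ξ μ ∧ ∀ i, ξ μ i ≤ x i then (1 : ℝ) else 0) := by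
      funext x
      by_cases hx : (0 : Fin d → ℝ) ≤ ξ μ ∧ ∀ i, ξ μ i ≤ x i
      · rw [if_pos hx, Set.indicator_of_mem]
        exact ⟨hx.1, hx.2⟩
      · rw [if_neg hx, Set.indicator_of_notMem]
        intro h
        exact hx ⟨h.1, h.2⟩
    rw [h]
    apply Measurable.ite _ measurable_const measurable_const
    have : {x : Fin d → ℝ | (0 : Fin d → ℝ) ≤ ξ μ ∧ ∀ i, ξ μ i ≤ x i} =
        {_x : Fin d → ℝ | (0 : Fin d → ℝ) ≤ ξ μ} ∩ ⋂ i, {x : Fin d → ℝ | ξ μ i ≤ x i} := by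
      ext x
      simp
    rw [this]
    apply MeasurableSet.inter (MeasurableSet.const _)
    exact MeasurableSet.iInter fun i => measurableSet_le measurable_const (measurable_pi_apply i)

/-- Every point set closed under minima, maxima or medians is closed under `toward c` for some `c`. -/
theorem exists_toward {m d : ℕ} (hm : 1 ≤ m) (ξ : Fin m → Fin d → ℝ) (h : OpClosed ξ) :
    ∃ c : Fin d → EReal, ClosedToward c ξ := by
  rcases h with h | h | h | h
  · refine ⟨fun _ => ⊥, fun μ ν => ?_⟩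
    obtain ⟨κ, hκ⟩ := h μ ν
    exact ⟨κ, fun i => by rw [hκ i]; unfold toward; rw [if_pos rfl]⟩
  · refine ⟨fun _ => ⊤, fun μ ν => ?_⟩
    obtain ⟨κ, hκ⟩ := h μ ν
    exact ⟨κ, fun i => by rw [hκ i]; unfold toward; rw [if_neg (by simp), if_pos rfl]⟩
  · refine ⟨fun i => ((ξ ⟨0, hm⟩ i : ℝ) : EReal), fun μ ν => ?_⟩
    obtain ⟨κ, hκ⟩ := h μ ν ⟨0, hm⟩
    refine ⟨κ, fun i => ?_⟩
    rw [hκ i]
    unfold toward median
    rw [if_neg (EReal.coe_ne_bot _), if_neg (EReal.coe_ne_top _), EReal.toReal_coe]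
  · exact h

theorem toward_comm (c : EReal) (s t : ℝ) : toward c s t = toward c t s := by
  unfold toward
  rw [min_comm s t, max_comm s t]

theorem toward_right (c : EReal) (hc : c ≤ ((1 / 2 : ℝ) : EReal)) (s t : ℝ) (hs : 1 / 2 ≤ s)
    (ht : 1 / 2 ≤ t) : toward c s t = min s t := by
  unfold toward
  split_ifs with h1 h2
  · rfl
  · subst h2
    exact absurd hc (not_le.2 (EReal.coe_lt_top _))
  · have h3 : c.toReal ≤ 1 / 2 := by
      have := EReal.toReal_le_toReal hc h1 (EReal.coe_ne_top _)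
      rwa [EReal.toReal_coe] at this
    apply max_eq_left
    exact (min_le_right _ _).trans (le_min (h3.trans hs) (h3.trans ht))

theorem toward_left (c : EReal) (hc : ((1 / 2 : ℝ) : EReal) < c) (s t : ℝ) (hs : s ≤ 1 / 2)
    (ht : t ≤ 1 / 2) : toward c s t = max s t := by
  unfold toward
  split_ifs with h1 h2
  · subst h1
    exact absurd hc (not_lt.2 bot_le)
  · rfl
  · have h3 : 1 / 2 ≤ c.toReal := by
      have := EReal.toReal_le_toReal hc.le (EReal.coe_ne_bot _) h2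
      rwa [EReal.toReal_coe] at this
    have h4 : max s t ≤ c.toReal := max_le (hs.trans h3) (ht.trans h3)
    rw [min_eq_left h4]
    exact max_eq_right min_le_max

theorem in_measure {d N : ℕ} (hd : 1 ≤ d) (hN : 1 ≤ N) (ξ : Fin N → Fin d → ℝ) (hξ : OpClosed ξ)
    (lam : Fin N → ℝ) (a : Fin d → (Fin d → ℝ) → ℝ)
    (ha : ∀ s x z, a s (Function.update x s z) = a s x) :
    ENNReal.ofReal ((1 / 16) ^ d) ≤ volume {x : Fin d → ℝ | x ∈ Set.Icc (0 : Fin d → ℝ) 1 ∧
      1 / 2 * (1 / 16) ^ d * (N : ℝ) ^ (-(1 / (d : ℝ))) ≤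
        |∏ i, x i - ∑ μ, lam μ * (if ∀ i, ξ μ i ≤ x i then (1 : ℝ) else 0) - ∑ s, a s x|} := by
  obtain ⟨c, hc⟩ := exists_toward hN ξ hξ
  have hd0 : (d : ℝ) ≠ 0 := by
    have : d ≠ 0 := by omega
    exact_mod_cast this
  have hN1 : (1 : ℝ) ≤ N := by exact_mod_cast hN
  set n : ℝ := (N : ℝ) ^ (1 / (d : ℝ)) with hn
  have hn1 : 1 ≤ n := Real.one_le_rpow hN1 (by positivity)
  have hnd : (Fintype.card (Fin N) : ℝ) ≤ n ^ Fintype.card (Fin d) := by
    rw [Fintype.card_fin, Fintype.card_fin, hn, ← Real.rpow_natCast, ← Real.rpow_mul (by positivity)]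
    rw [one_div_mul_cancel hd0, Real.rpow_one]
  have hcases : ∀ i, c i ≤ ((1 / 2 : ℝ) : EReal) ∨ ((1 / 2 : ℝ) : EReal) < c i := fun i => le_or_gt _ _
  classical
  set p : Fin d → ℝ := fun i => if c i ≤ ((1 / 2 : ℝ) : EReal) then 1 / 2 else 1 / 4 with hp
  set f : Fin d → ℝ := fun i => if c i ≤ ((1 / 2 : ℝ) : EReal) then 3 / 4 else 0 with hf
  have key := X27.Disc.main_measure (ι := Fin d) ⟨⟨0, hd⟩⟩ ξ lam (fun i => toward (c i)) p f
    (by intro i; rw [hp]; beta_reduce; split_ifs <;> norm_num)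
    (by intro i; rw [hf]; beta_reduce; split_ifs <;> norm_num)
    ?_ ?_ ?_ hc a ha n (by positivity) hnd
  · rw [Fintype.card_fin] at key
    refine key.trans (measure_mono ?_)
    rintro x ⟨hx1, hx2⟩
    refine ⟨hx1, le_trans ?_ (hx2.trans (le_of_eq (by congr!)))⟩
    rw [Real.rpow_neg (by positivity), ← hn, div_eq_mul_inv ((1 / 16 : ℝ) ^ d) (n + 1)]
    have h5 : (2 * n)⁻¹ ≤ (n + 1)⁻¹ := inv_anti₀ (by positivity) (by linarith)
    have h6 : (1 / 2 : ℝ) * (1 / 16) ^ d * n⁻¹ = (1 / 16) ^ d * (2 * n)⁻¹ := by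
      rw [mul_inv]; ring
    rw [h6]
    exact mul_le_mul_of_nonneg_left h5 (by positivity)
  · intro i s hs t ht
    rw [hp] at hs
    rw [hf] at ht
    beta_reduce at hs ht ⊢
    rcases hcases i with h | h
    · rw [if_pos h] at hs ht
      rw [toward_right (c i) h s t hs.1 (by linarith [ht.1])]
      exact min_eq_left (by linarith [hs.2, ht.1])
    · rw [if_neg (not_le.2 h)] at hs ht
      rw [toward_left (c i) h s t (by linarith [hs.2]) (by linarith [ht.2])]
      exact max_eq_left (by linarith [hs.1, ht.2])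
  · intro i s hs t ht
    rw [hp] at hs
    rw [hf] at ht
    beta_reduce at hs ht ⊢
    rcases hcases i with h | h
    · rw [if_pos h] at hs ht
      rw [toward_right (c i) h t s (by linarith [ht.1]) hs.1]
      exact min_eq_right (by linarith [hs.2, ht.1])
    · rw [if_neg (not_le.2 h)] at hs ht
      rw [toward_left (c i) h t s (by linarith [ht.2]) (by linarith [hs.2])]
      exact max_eq_right (by linarith [hs.1, ht.2])
  · intro i s hs t ht
    rw [hf] at hs ht ⊢
    beta_reduce at hs ht ⊢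
    rcases hcases i with h | h
    · rw [if_pos h] at hs ht ⊢
      rw [toward_right (c i) h s t (by linarith [hs.1]) (by linarith [ht.1])]
      exact ⟨le_min hs.1 ht.1, (min_le_left _ _).trans hs.2⟩
    · rw [if_neg (not_le.2 h)] at hs ht ⊢
      rw [toward_left (c i) h s t (by linarith [hs.2]) (by linarith [ht.2])]
      exact ⟨hs.1.trans (le_max_left _ _), max_le hs.2 ht.2⟩

theorem isProb (d : ℕ) : IsProbabilityMeasure (volume.restrict (Set.Icc (0 : Fin d → ℝ) 1)) := by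
  constructor
  rw [Measure.restrict_apply_univ, Real.volume_Icc_pi]
  simp

theorem lower {d m : ℕ} (hd : 1 ≤ d) (hm : 1 ≤ m) (q : ENNReal) (hq : 1 ≤ q)
    (ξ : Fin m → Fin d → ℝ) (hξ : ∀ μ, ξ μ ∈ Set.Icc (0 : Fin d → ℝ) 1) (hcl : OpClosed ξ) :
    ENNReal.ofReal (1 / 2 * (1 / 256) ^ d * (m : ℝ) ^ (-(1 / (d : ℝ)))) ≤ starDisc q ξ := by
  have hprob := isProb d
  set θ : ℝ := 1 / 2 * (1 / 16) ^ d * (m : ℝ) ^ (-(1 / (d : ℝ))) with hθ
  have hθ0 : 0 ≤ θ := by positivity
  have h1 := in_measure hd hm ξ hcl (fun _ => 1 / (m : ℝ)) (fun _ _ => 0) (fun _ _ _ => rfl)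
  have h2 : {x : Fin d → ℝ | x ∈ Set.Icc (0 : Fin d → ℝ) 1 ∧
      1 / 2 * (1 / 16) ^ d * (m : ℝ) ^ (-(1 / (d : ℝ))) ≤
        |∏ i, x i - ∑ μ, 1 / (m : ℝ) * (if ∀ i, ξ μ i ≤ x i then (1 : ℝ) else 0) -
          ∑ s : Fin d, (0 : ℝ)|} ⊆
      {x : Fin d → ℝ | ENNReal.ofReal θ ≤ ‖localDisc ξ x‖ₑ} ∩ Set.Icc (0 : Fin d → ℝ) 1 := by
    rintro x ⟨hx1, hx2⟩
    refine ⟨?_, hx1⟩
    change ENNReal.ofReal θ ≤ ‖localDisc ξ x‖ₑ
    rw [← ofReal_norm, Real.norm_eq_abs]
    apply ENNReal.ofReal_le_ofReal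
    refine hx2.trans (le_of_eq ?_)
    unfold localDisc
    congr 1
    rw [Finset.sum_const_zero, sub_zero, Finset.mul_sum]
    congr 1
    refine Finset.sum_congr rfl fun μ _ => ?_
    congr 1
    by_cases hx : ∀ i, ξ μ i ≤ x i
    · rw [if_pos hx, Set.indicator_of_mem (show ξ μ ∈ Set.Icc (0 : Fin d → ℝ) x from
        ⟨(hξ μ).1, hx⟩)]
    · rw [if_neg hx, Set.indicator_of_notMem (fun h => hx h.2)]
  have hmeas : Measurable (localDisc ξ) := measurable_localDisc ξ
  have h3 : ENNReal.ofReal ((1 / 16) ^ d) ≤ (volume.restrict (Set.Icc (0 : Fin d → ℝ) 1))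
      {x : Fin d → ℝ | ENNReal.ofReal θ ≤ ‖localDisc ξ x‖ₑ} := by
    rw [Measure.restrict_apply (measurableSet_le measurable_const hmeas.enorm)]
    exact h1.trans (measure_mono h2)
  have h4 : ENNReal.ofReal θ * (volume.restrict (Set.Icc (0 : Fin d → ℝ) 1))
      {x : Fin d → ℝ | ENNReal.ofReal θ ≤ ‖localDisc ξ x‖ₑ} ≤
      eLpNorm (localDisc ξ) 1 (volume.restrict (Set.Icc (0 : Fin d → ℝ) 1)) := by
    rw [eLpNorm_one_eq_lintegral_enorm]
    exact mul_meas_ge_le_lintegral₀ hmeas.enorm.aemeasurable _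
  have h5 : (1 / 2 * (1 / 256) ^ d * (m : ℝ) ^ (-(1 / (d : ℝ)))) = θ * (1 / 16) ^ d := by
    have : ((1 : ℝ) / 256) ^ d = (1 / 16) ^ d * (1 / 16) ^ d := by
      rw [← mul_pow]; norm_num
    rw [hθ, this]; ring
  rw [h5, ENNReal.ofReal_mul hθ0]
  refine (mul_le_mul_right h3 _).trans (h4.trans ?_)
  exact eLpNorm_le_eLpNorm_of_exponent_le hq hmeas.aestronglyMeasurable

theorem upper {d m : ℕ} (hd : 1 ≤ d) (hm : 1 ≤ m) (q : ENNReal) :
    latticeDisc q m d ≤ ENNReal.ofReal (3 * d * (m : ℝ) ^ (-(1 / (d : ℝ)))) := by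
  have hprob := isProb d
  obtain ⟨ξ, h1, h2, h3, h4⟩ := X27.Disc.exists_grid d hd m hm
  unfold latticeDisc
  refine (iInf₂_le ξ h1).trans ((iInf_le _ ⟨h2, h3⟩).trans ?_)
  unfold starDisc
  refine (eLpNorm_le_of_ae_bound (C := 3 * d * (m : ℝ) ^ (-(1 / (d : ℝ)))) ?_).trans ?_
  · filter_upwards [ae_restrict_mem measurableSet_Icc] with x hx
    rw [Real.norm_eq_abs]
    exact h4 x hx
  · rw [measure_univ, ENNReal.one_rpow, one_mul]

/-- Let `d ≥ 1`.
(1) If the set of the nodes `ξ^1, …, ξ^N ∈ ℝ^d` is closed under coordinatewise minima, or maxima, or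
medians, or under `toward c` for some `c ∈ [-∞, ∞]^d`, then for all real weights `λ_μ` and all
functions `a_1, …, a_d` where `a_s` does not depend on `x_s`, the set of the `x ∈ [0,1]^d` with
`|∏ x_j - Σ_μ λ_μ [ξ^μ ≤ x] - Σ_s a_s(x)| ≥ 16^(-d) N^(-1/d) / 2` has (outer) measure at least
`16^(-d)`.
(2) For all `1 ≤ q ≤ ∞` and `m ≥ 1` the optimal `L_q` star discrepancy of `m`-point sets closed under
one of these operations is at least `256^(-d) m^(-1/d) / 2`, and that of `m`-point sets closed under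
minima and maxima is at most `3 d m^(-1/d)`. So both have the exact order `m^(-1/d)`. -/
theorem result (d : ℕ) (hd : 1 ≤ d) :
    (∀ N : ℕ, 1 ≤ N → ∀ ξ : Fin N → Fin d → ℝ, OpClosed ξ →
      ∀ (lam : Fin N → ℝ) (a : Fin d → (Fin d → ℝ) → ℝ),
      (∀ s x z, a s (Function.update x s z) = a s x) →
      ENNReal.ofReal ((1 / 16) ^ d) ≤ volume {x : Fin d → ℝ | x ∈ Set.Icc (0 : Fin d → ℝ) 1 ∧
        1 / 2 * (1 / 16) ^ d * (N : ℝ) ^ (-(1 / (d : ℝ))) ≤
          |∏ i, x i - ∑ μ, lam μ * (if ∀ i, ξ μ i ≤ x i then (1 : ℝ) else 0) - ∑ s, a s x|}) ∧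
    (∀ q : ENNReal, 1 ≤ q → ∀ m : ℕ, 1 ≤ m →
      ENNReal.ofReal (1 / 2 * (1 / 256) ^ d * (m : ℝ) ^ (-(1 / (d : ℝ)))) ≤ closedDisc q m d ∧
      closedDisc q m d ≤ latticeDisc q m d ∧
      latticeDisc q m d ≤ ENNReal.ofReal (3 * d * (m : ℝ) ^ (-(1 / (d : ℝ))))) := by
  refine ⟨fun N hN ξ hξ lam a ha => in_measure hd hN ξ hξ lam a ha, fun q hq m hm => ⟨?_, ?_, ?_⟩⟩
  · exact le_iInf₂ fun ξ hξ => le_iInf fun hcl => lower hd hm q hq ξ hξ hcl
  · exact le_iInf₂ fun ξ hξ => le_iInf fun hcl =>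
      (iInf₂_le ξ hξ).trans (iInf_le _ (Or.inl hcl.1))
  · exact upper hd hm q

end Pool.Agent.Results.MP_173de9_an.MinClosedSets
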